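import Pool.Agent.Helper42_CG.Stmt

/-!
CGP, module MAXD: a set of tails of maximal deficiency.
-/

namespace Pool.Agent.CGP.H66

open Pool.Agent.CGP

theorem maxd : MaxdStmt := by
  intro V _ g Z A0 hZ hA0
  classical
  set N : Set V → Set V := fun A => {y | ∃ x ∈ A, g x y} with hN
  set f : Set V → ℤ := fun A => ((Fintype.card V : ℤ) + 1) * ((A \ Z).ncard - (N A).ncard) +
    A.ncard with hf
  obtain ⟨A, hA⟩ := Finite.exists_max f
  have hcard : ∀ B : Set V, (B.ncard : ℤ) ≤ Fintype.card V := by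
    intro B
    have := Set.ncard_le_card B
    rw [Nat.card_eq_fintype_card] at this
    exact_mod_cast this
  have hpos : (0 : ℤ) < (Fintype.card V : ℤ) + 1 := by positivity
  refine ⟨A, ?_, ?_, ?_⟩
  · -- positive deficiency
    have h1 := hA A0
    simp only [hf] at h1
    have e0 : A0 \ Z = A0 := by
      ext x
      simp only [Set.mem_sdiff, and_iff_left_iff_imp]
      exact hZ x
    rw [e0] at h1
    have h2 : (1 : ℤ) ≤ (A0.ncard : ℤ) - (N A0).ncard := by
      have : (N A0).ncard < A0.ncard := hA0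
      omega
    have h3 := hcard A
    have h4 : (0 : ℤ) ≤ (A0.ncard : ℤ) := by positivity
    by_contra hcon
    push Not at hcon
    have h5 : ((A \ Z).ncard : ℤ) - (N A).ncard ≤ 0 := by
      have : (A \ Z).ncard ≤ (N A).ncard := hcon
      omega
    nlinarith
  · intro X hXA hXne
    have h1 := hA (A ∪ X)
    simp only [hf] at h1
    have e1 : ((A ∪ X) \ Z).ncard = (A \ Z).ncard + (X \ Z).ncard := by
      rw [Set.union_sdiff_distrib]
      exact Set.ncard_union_eq
        (hXA.symm.mono Set.sdiff_subset Set.sdiff_subset) (Set.toFinite _) (Set.toFinite _)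
    have e2 : N (A ∪ X) = N A ∪ {y | (∃ x ∈ X, g x y) ∧ ¬ ∃ x ∈ A, g x y} := by
      ext y
      simp only [hN, Set.mem_union, Set.mem_ofPred_eq]
      constructor
      · rintro ⟨x, hx | hx, hxy⟩
        · exact Or.inl ⟨x, hx, hxy⟩
        · by_cases h : ∃ x ∈ A, g x y
          · exact Or.inl h
          · exact Or.inr ⟨⟨x, hx, hxy⟩, h⟩
      · rintro (⟨x, hx, hxy⟩ | ⟨⟨x, hx, hxy⟩, -⟩)
        · exact ⟨x, Or.inl hx, hxy⟩
        · exact ⟨x, Or.inr hx, hxy⟩
    have e3 : (N (A ∪ X)).ncard ≤ (N A).ncard +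
        {y | (∃ x ∈ X, g x y) ∧ ¬ ∃ x ∈ A, g x y}.ncard := by
      rw [e2]
      exact Set.ncard_union_le _ _
    have e4 : (A ∪ X).ncard = A.ncard + X.ncard :=
      Set.ncard_union_eq hXA.symm (Set.toFinite _) (Set.toFinite _)
    have e5 : 0 < X.ncard := (Set.ncard_pos (Set.toFinite _)).2 hXne
    rw [e1, e4] at h1
    by_contra hcon
    rw [not_lt] at hcon
    have h6 : (((A \ Z).ncard : ℤ) - (N A).ncard) ≤
        ((((A \ Z).ncard + (X \ Z).ncard : ℕ) : ℤ) - (N (A ∪ X)).ncard) := by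
      push_cast
      have : (N (A ∪ X)).ncard ≤ (N A).ncard + (X \ Z).ncard := le_trans e3 (by omega)
      omega
    have h7 := mul_le_mul_of_nonneg_left h6 hpos.le
    push_cast at h1 h7
    have e5' : (0 : ℤ) < X.ncard := by exact_mod_cast e5
    linarith
  · intro Y hY
    have h1 := hA {x | x ∈ A ∧ ∀ y ∈ Y, ¬ g x y}
    simp only [hf] at h1
    set A' : Set V := {x | x ∈ A ∧ ∀ y ∈ Y, ¬ g x y} with hA'
    set T : Set V := {x | x ∈ A ∧ x ∉ Z ∧ ∃ y ∈ Y, g x y} with hT
    have e1 : (A \ Z).ncard ≤ (A' \ Z).ncard + T.ncard := by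
      refine le_trans (Set.ncard_le_ncard ?_ (Set.toFinite _)) (Set.ncard_union_le _ _)
      intro x hx
      by_cases h : ∃ y ∈ Y, g x y
      · exact Or.inr ⟨hx.1, hx.2, h⟩
      · push Not at h
        exact Or.inl ⟨⟨hx.1, h⟩, hx.2⟩
    have e2 : (N A').ncard + Y.ncard ≤ (N A).ncard := by
      rw [← Set.ncard_union_eq ?_ (Set.toFinite _) (Set.toFinite _)]
      · refine Set.ncard_le_ncard ?_ (Set.toFinite _)
        rintro y (⟨x, hx, hxy⟩ | hy)
        · exact ⟨x, hx.1, hxy⟩
        · exact hY y hy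
      · rw [Set.disjoint_left]
        rintro y ⟨x, hx, hxy⟩ hy
        exact hx.2 y hy hxy
    have h2 := hcard A
    have h3 : (0 : ℤ) ≤ (A'.ncard : ℤ) := by positivity
    by_contra hcon
    push Not at hcon
    have h4 : (((A \ Z).ncard : ℤ) - (N A).ncard) + 1 ≤
        ((A' \ Z).ncard : ℤ) - (N A').ncard := by
      have : T.ncard < Y.ncard := hcon
      omega
    have h5 := mul_le_mul_of_nonneg_left h4 hpos.le
    linarith

end Pool.Agent.CGP.H66
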